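import Pool.Agent.H45.Haar

open MeasureTheory Filter Topology Complex Pool.Agent.H45.Haar
open scoped ComplexConjugate BoundedContinuousFunction

namespace Pool.Agent.Results.MP_7cef9e_pr.Outlier

noncomputable def lam (n : ℕ) (i : Fin n) : ℝ := if i.val = 0 then 1 else 0

lemma sph_eq (N : ℕ) : sph (N + 1) (Matrix.diagonal fun i => (lam (N + 1) i : ℂ)) =
    fun z => φ N 0 ((N + 1 : ℕ) * z) := by
  funext z
  refine integral_congr_ae (Eventually.of_forall fun V => ?_)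
  simp only [pow_zero, one_mul]
  congr 1
  simp [Matrix.trace, Matrix.mul_apply, D, lam, A, Matrix.diagonal_apply, Fin.sum_univ_succ,
    Matrix.star_apply]
  ring

lemma f_eq (N : ℕ) (z : ℂ) : f (N + 1) (Matrix.diagonal fun i => (lam (N + 1) i : ℂ)) z =
    φ N 1 ((N + 1 : ℕ) * z) / φ N 0 ((N + 1 : ℕ) * z) := by
  have h : HasDerivAt (fun z : ℂ => φ N 0 ((N + 1 : ℕ) * z)) _ z :=
    (φ_deriv 0 _).comp z ((hasDerivAt_id z).const_mul ((N + 1 : ℕ) : ℂ))
  have : ((N + 1 : ℕ) : ℂ) ≠ 0 := by exact_mod_cast N.succ_ne_zero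
  rw [f, sph_eq, h.deriv, mul_one, mul_comm, mul_div_mul_left _ _ this]

lemma isR : IsR (Measure.dirac 0) fun _ => 0 :=
  ⟨analyticAt_const, Eventually.of_forall fun z => by simp⟩

lemma cp : CompactProb (Measure.dirac 0) := ⟨inferInstance, 0, by simp⟩

lemma lim : Tendsto (fun n => f n (Matrix.diagonal fun i => (lam n i : ℂ)) (10 + I)) atTop
    (𝓝 (1 - 1 / (10 + I))) := by
  set z : ℂ := 10 + I with hz
  have hz0 : z ≠ 0 := fun h => by simpa [hz] using congrArg im h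
  have hn : ‖z‖ ≤ 11 := (norm_add_le _ _).trans (by simp; norm_num)
  have hb : ∀ M : ℕ, (M : ℝ) + 2 ≤ ‖φ (M + 1) 0 ((M + 1 + 1 : ℕ) * z)‖ := fun M =>
    φ_big M _ (by simp [hz]; linarith) (by
      rw [norm_mul, Complex.norm_natCast]; push_cast; nlinarith [Nat.cast_nonneg (α := ℝ) M])
  rw [← tendsto_add_atTop_iff_nat 2]
  have h1 : Tendsto (fun M : ℕ => (φ (M + 1) 0 ((M + 1 + 1 : ℕ) * z))⁻¹) atTop (𝓝 0) := by
    refine tendsto_inv₀_cobounded.comp (tendsto_norm_atTop_iff_cobounded.1 ?_)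
    exact tendsto_atTop_mono hb (tendsto_atTop_add_const_right _ _ tendsto_natCast_atTop_atTop)
  have h2 : Tendsto (fun M : ℕ => (((M + 2 : ℕ) : ℂ))⁻¹) atTop (𝓝 0) :=
    (tendsto_add_atTop_iff_nat 2).2 (tendsto_inv_atTop_nhds_zero_nat (𝕜 := ℂ))
  have h3 := (((h2.const_sub 1).div_const z).mul (h1.const_sub 1)).const_sub 1
  simp only [sub_zero, mul_one] at h3
  refine h3.congr fun M => ?_
  have h4 : φ (M + 1) 0 ((M + 1 + 1 : ℕ) * z) ≠ 0 := fun h => by
    have := hb M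
    rw [h, norm_zero] at this
    linarith [Nat.cast_nonneg (α := ℝ) M]
  have h5 := ode1 (N := M + 1) ((M + 1 + 1 : ℕ) * z)
  have h6 : ((M + 2 : ℕ) : ℂ) ≠ 0 := by exact_mod_cast (M + 1).succ_ne_zero
  rw [show M + 2 = M + 1 + 1 from rfl, f_eq]
  rw [show M + 2 = M + 1 + 1 from rfl] at h6
  field_simp
  push_cast at h5 ⊢
  linear_combination -h5

theorem result : ∃ (e : ∀ n, Fin n → ℝ) (μ : Measure ℝ) (R : ℂ → ℂ) (z L : ℂ),
    (∃ C, ∀ n i, |e n i| ≤ C) ∧ CompactProb μ ∧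
    (∀ g : ℝ →ᵇ ℝ, Tendsto (fun n : ℕ => (∑ i, g (e n i)) / n) atTop (𝓝 (∫ x, g x ∂μ))) ∧
    FreeID μ ∧ IsR μ R ∧ Differentiable ℂ R ∧ 0 < z.im ∧ L ≠ R z ∧
    Tendsto (fun n => f n (Matrix.diagonal fun i => (e n i : ℂ)) z) atTop (𝓝 L) := by
  refine ⟨lam, Measure.dirac 0, fun _ => 0, 10 + I, _, ⟨1, fun n i => ?_⟩, cp, fun g => ?_,
    fun k _ => ⟨_, _, cp, isR, by simpa using isR⟩, isR, differentiable_const _, by simp, ?_, lim⟩
  · unfold lam; split_ifs <;> simp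
  · rw [← tendsto_add_atTop_iff_nat 1, integral_dirac]
    have h := (((tendsto_add_atTop_iff_nat 1).2
      (tendsto_inv_atTop_nhds_zero_nat (𝕜 := ℝ))).const_mul (g 1 - g 0)).const_add (g 0)
    simp only [mul_zero, add_zero] at h
    refine h.congr fun n => ?_
    simp [Fin.sum_univ_succ, lam]
    field_simp
    ring
  · intro h
    have hz0 : (10 + I : ℂ) ≠ 0 := fun h => by simpa using congrArg im h
    rw [sub_eq_zero, eq_div_iff hz0] at h
    simpa using congrArg im h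

end Pool.Agent.Results.MP_7cef9e_pr.Outlier
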